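import Mathlib

namespace Pool.Agent.Results.MP_79e3be_pr.NearLinear

open Finset
open scoped ENNReal

section General

variable {V : Type*} [Fintype V] [DecidableEq V]

/-- The probability with which the white vertex `w` turns blue when the blue set is `B`. -/
noncomputable def q (wt : V → V → ℝ) (B : Finset V) (w : V) : ℝ :=
  (∑ x ∈ B, wt x w) / ∑ x, wt x w

/-- The probability that, from the blue set `B`, the white vertices turning blue in the next round
are exactly those of `S` (a set of white vertices): the trials are independent. -/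
noncomputable def step (wt : V → V → ℝ) (B S : Finset V) : ℝ :=
  (∏ w ∈ S, q wt B w) * ∏ w ∈ Bᶜ \ S, (1 - q wt B w)

/-- The probability that randomized zero forcing started from the blue set `B` has not turned all
vertices blue by time `t`, that is `P(τ > t)`, by decomposing according to the first round. -/
noncomputable def notDone (wt : V → V → ℝ) : ℕ → Finset V → ℝ
  | 0, B => if B = univ then 0 else 1
  | (t+1), B => ∑ S ∈ (Bᶜ).powerset, step wt B S * notDone wt t (B ∪ S)

/-- The expected propagation time `E[τ] = ∑_{t ≥ 0} P(τ > t)`, possibly infinite. -/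
noncomputable def ept (wt : V → V → ℝ) (B : Finset V) : ℝ≥0∞ :=
  ∑' t : ℕ, ENNReal.ofReal (notDone wt t B)

lemma sum_step (wt : V → V → ℝ) (B : Finset V) :
    ∑ S ∈ (Bᶜ).powerset, step wt B S = 1 := by
  unfold step
  rw [← Finset.prod_add]
  simp

lemma sum_step_superset (wt : V → V → ℝ) (B R : Finset V) (hR : R ⊆ Bᶜ) :
    ∑ S ∈ (Bᶜ).powerset, step wt B S * (if R ⊆ S then 1 else 0) = ∏ w ∈ R, q wt B w := by
  have h1 : ∀ S ∈ (Bᶜ).powerset, step wt B S * (if R ⊆ S then 1 else 0) =
      (∏ w ∈ S, q wt B w) * ∏ w ∈ Bᶜ \ S, (if w ∈ R then 0 else (1 - q wt B w)) := by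
    intro S _
    unfold step
    by_cases hS : R ⊆ S
    · rw [if_pos hS, mul_one]
      congr 1
      apply Finset.prod_congr rfl
      intro w hw
      rw [if_neg]
      intro hwR
      exact (Finset.mem_sdiff.1 hw).2 (hS hwR)
    · rw [if_neg hS]
      obtain ⟨w, hw1, hw2⟩ := Finset.not_subset.1 hS
      rw [Finset.prod_eq_zero (s := Bᶜ \ S) (f := fun w => if w ∈ R then 0 else (1 - q wt B w))
        (i := w) (Finset.mem_sdiff.2 ⟨hR hw1, hw2⟩) (by simp [hw1])]
      simp
  rw [Finset.sum_congr rfl h1, ← Finset.prod_add]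
  rw [← Finset.prod_sdiff hR]
  have h2 : ∏ w ∈ Bᶜ \ R, (q wt B w + if w ∈ R then 0 else (1 - q wt B w)) = 1 := by
    apply Finset.prod_eq_one
    intro w hw
    rw [if_neg (Finset.mem_sdiff.1 hw).2]; ring
  rw [h2, one_mul]
  apply Finset.prod_congr rfl
  intro w hw
  rw [if_pos hw, add_zero]

/-- mean number of newly blue vertices among the vertices `e i` -/
noncomputable def mean {ι : Type*} [Fintype ι] (wt : V → V → ℝ) (B : Finset V) (e : ι → V) : ℝ :=
  ∑ i, if e i ∉ B then q wt B (e i) else 0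

/-- number of elements of `S` among the vertices `e i` -/
noncomputable def num {ι : Type*} [Fintype ι] (e : ι → V) (S : Finset V) : ℝ :=
  ∑ i, if e i ∈ S then 1 else 0

lemma single_prob (wt : V → V → ℝ) (B : Finset V) (x : V) :
    ∑ S ∈ (Bᶜ).powerset, step wt B S * (if x ∈ S then 1 else 0) =
      if x ∉ B then q wt B x else 0 := by
  by_cases hx : x ∈ B
  · rw [if_neg (by simpa using hx)]
    apply Finset.sum_eq_zero
    intro S hS
    rw [if_neg, mul_zero]
    intro hxS
    have := Finset.mem_powerset.1 hS hxS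
    simp [hx] at this
  · rw [if_pos hx]
    have := sum_step_superset wt B {x} (by simpa using hx)
    simpa using this

lemma pair_prob (wt : V → V → ℝ) (B : Finset V) (x y : V) (hxy : x ≠ y) :
    ∑ S ∈ (Bᶜ).powerset, step wt B S * ((if x ∈ S then 1 else 0) * (if y ∈ S then 1 else 0)) =
      (if x ∉ B then q wt B x else 0) * (if y ∉ B then q wt B y else 0) := by
  by_cases hx : x ∈ B
  · rw [if_neg (show ¬ x ∉ B by simpa using hx), zero_mul]
    apply Finset.sum_eq_zero
    intro S hS
    have : x ∉ S := fun hxS => by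
      have := Finset.mem_powerset.1 hS hxS
      simp [hx] at this
    simp [this]
  by_cases hy : y ∈ B
  · rw [if_neg (show ¬ y ∉ B by simpa using hy), mul_zero]
    apply Finset.sum_eq_zero
    intro S hS
    have : y ∉ S := fun hyS => by
      have := Finset.mem_powerset.1 hS hyS
      simp [hy] at this
    simp [this]
  rw [if_pos hx, if_pos hy]
  have := sum_step_superset wt B {x, y} (by
    intro z hz; simp at hz; rcases hz with rfl | rfl <;> simpa)
  rw [Finset.prod_pair hxy] at this
  rw [← this]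
  apply Finset.sum_congr rfl
  intro S _
  congr 1
  by_cases h1 : x ∈ S <;> by_cases h2 : y ∈ S <;> simp [h1, h2, Finset.insert_subset_iff]

lemma first_moment {ι : Type*} [Fintype ι] (wt : V → V → ℝ) (B : Finset V) (e : ι → V) :
    ∑ S ∈ (Bᶜ).powerset, step wt B S * num e S = mean wt B e := by
  unfold num mean
  simp only [Finset.mul_sum]
  rw [Finset.sum_comm]
  apply Finset.sum_congr rfl
  intro i _
  exact single_prob wt B (e i)

lemma second_moment {ι : Type*} [Fintype ι] [DecidableEq ι] (wt : V → V → ℝ) (B : Finset V)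
    (e : ι → V) (he : Function.Injective e) (hq0 : ∀ B w, 0 ≤ q wt B w) :
    ∑ S ∈ (Bᶜ).powerset, step wt B S * num e S ^ 2 ≤ mean wt B e ^ 2 + mean wt B e := by
  set p : ι → ℝ := fun i => if e i ∉ B then q wt B (e i) else 0 with hp
  have hp0 : ∀ i, 0 ≤ p i := by intro i; by_cases h : e i ∈ B <;> simp [hp, h, hq0]
  have h1 : ∑ S ∈ (Bᶜ).powerset, step wt B S * num e S ^ 2 =
      ∑ i, ∑ k, ∑ S ∈ (Bᶜ).powerset,
        step wt B S * ((if e i ∈ S then 1 else 0) * (if e k ∈ S then 1 else 0)) := by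
    rw [show (∑ i, ∑ k, ∑ S ∈ (Bᶜ).powerset,
        step wt B S * ((if e i ∈ S then (1:ℝ) else 0) * (if e k ∈ S then 1 else 0))) =
        ∑ S ∈ (Bᶜ).powerset, ∑ i, ∑ k,
        step wt B S * ((if e i ∈ S then (1:ℝ) else 0) * (if e k ∈ S then 1 else 0)) by
      rw [Finset.sum_comm (s := (Bᶜ).powerset)]
      exact Finset.sum_congr rfl fun i _ => Finset.sum_comm]
    apply Finset.sum_congr rfl
    intro S _
    unfold num
    rw [sq, Finset.sum_mul_sum, Finset.mul_sum]
    apply Finset.sum_congr rfl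
    intro i _
    rw [Finset.mul_sum]
  rw [h1]
  have h2 : mean wt B e ^ 2 + mean wt B e = ∑ i, ∑ k, (p i * p k + if i = k then p i else 0) := by
    unfold mean
    rw [sq, Finset.sum_mul_sum, ← Finset.sum_add_distrib]
    apply Finset.sum_congr rfl
    intro i _
    rw [Finset.sum_add_distrib]
    simp [hp]
  rw [h2]
  apply Finset.sum_le_sum
  intro i _
  apply Finset.sum_le_sum
  intro k _
  by_cases hik : i = k
  · subst hik
    rw [if_pos rfl]
    have h3 : ∑ S ∈ (Bᶜ).powerset,
        step wt B S * ((if e i ∈ S then 1 else 0) * (if e i ∈ S then 1 else 0)) = p i := by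
      rw [← show _ = p i from single_prob wt B (e i)]
      apply Finset.sum_congr rfl
      intro S _
      congr 1
      split_ifs <;> simp
    rw [h3]
    have := mul_nonneg (hp0 i) (hp0 i)
    linarith
  · rw [if_neg hik, add_zero]
    exact le_of_eq (pair_prob wt B (e i) (e k) (fun h => hik (he h)))

variable (wt : V → V → ℝ) (hq0 : ∀ B w, 0 ≤ q wt B w) (hq1 : ∀ B w, q wt B w ≤ 1)

include hq0 hq1

lemma step_nonneg (B S : Finset V) : 0 ≤ step wt B S := by
  unfold step
  apply mul_nonneg
  · exact Finset.prod_nonneg fun w _ => hq0 B w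
  · exact Finset.prod_nonneg fun w _ => sub_nonneg.2 (hq1 B w)

lemma notDone_nonneg (t : ℕ) (B : Finset V) : 0 ≤ notDone wt t B := by
  induction t generalizing B with
  | zero => unfold notDone; split_ifs <;> norm_num
  | succ t ih =>
    unfold notDone
    exact Finset.sum_nonneg fun S _ => mul_nonneg (step_nonneg wt hq0 hq1 B S) (ih _)

lemma notDone_le_one (t : ℕ) (B : Finset V) : notDone wt t B ≤ 1 := by
  induction t generalizing B with
  | zero => unfold notDone; split_ifs <;> norm_num
  | succ t ih =>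
    unfold notDone
    calc ∑ S ∈ (Bᶜ).powerset, step wt B S * notDone wt t (B ∪ S)
        ≤ ∑ S ∈ (Bᶜ).powerset, step wt B S * 1 :=
          Finset.sum_le_sum fun S _ => mul_le_mul_of_nonneg_left (ih _)
            (step_nonneg wt hq0 hq1 B S)
      _ = 1 := by simp [sum_step]

lemma notDone_ge_pow (B : Finset V) (hB : B ≠ univ) (r : ℝ) (hr : r ≤ step wt B ∅) (hr0 : 0 ≤ r)
    (t : ℕ) : r ^ t ≤ notDone wt t B := by
  induction t with
  | zero => unfold notDone; rw [if_neg hB]; simp
  | succ t ih =>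
    have h1 : step wt B ∅ * notDone wt t (B ∪ ∅) ≤
        ∑ S ∈ (Bᶜ).powerset, step wt B S * notDone wt t (B ∪ S) :=
      Finset.single_le_sum (f := fun S => step wt B S * notDone wt t (B ∪ S))
        (fun S _ => mul_nonneg (step_nonneg wt hq0 hq1 B S) (notDone_nonneg wt hq0 hq1 t _))
        (by simp)
    unfold notDone
    refine le_trans ?_ h1
    rw [Finset.union_empty, pow_succ, mul_comm]
    exact mul_le_mul hr ih (pow_nonneg hr0 t) (le_trans hr0 hr)

end General

/-- The bidirectional complete bipartite graph `K_{a,b}` with all edge weights `c`. -/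
def K (a b : ℕ) (c : ℝ) : (Fin a ⊕ Fin b) → (Fin a ⊕ Fin b) → ℝ
  | Sum.inl _, Sum.inr _ => c
  | Sum.inr _, Sum.inl _ => c
  | Sum.inl _, Sum.inl _ => 0
  | Sum.inr _, Sum.inr _ => 0

lemma q_inl (a b : ℕ) (c : ℝ) (hc : 0 < c) (B : Finset (Fin a ⊕ Fin b)) (i : Fin a) :
    q (K a b c) B (Sum.inl i) = ((univ.filter (fun j : Fin b => Sum.inr j ∈ B)).card : ℝ) / b := by
  unfold q
  have h1 : ∑ x ∈ B, K a b c x (Sum.inl i) =
      c * ((univ.filter (fun j : Fin b => Sum.inr j ∈ B)).card : ℝ) := by
    have h3 : ∑ x ∈ B, K a b c x (Sum.inl i) = ∑ x, if x ∈ B then K a b c x (Sum.inl i) else 0 := by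
      simp
    rw [h3, Fintype.sum_sum_type]
    simp [K, ← Finset.sum_filter, mul_comm]
  have h2 : ∑ x, K a b c x (Sum.inl i) = c * b := by
    rw [Fintype.sum_sum_type]
    simp [K, mul_comm]
  rw [h1, h2, mul_div_mul_left _ _ hc.ne']

lemma q_inr (a b : ℕ) (c : ℝ) (hc : 0 < c) (B : Finset (Fin a ⊕ Fin b)) (j : Fin b) :
    q (K a b c) B (Sum.inr j) = ((univ.filter (fun i : Fin a => Sum.inl i ∈ B)).card : ℝ) / a := by
  unfold q
  have h1 : ∑ x ∈ B, K a b c x (Sum.inr j) =
      c * ((univ.filter (fun i : Fin a => Sum.inl i ∈ B)).card : ℝ) := by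
    have h3 : ∑ x ∈ B, K a b c x (Sum.inr j) = ∑ x, if x ∈ B then K a b c x (Sum.inr j) else 0 := by
      simp
    rw [h3, Fintype.sum_sum_type]
    simp [K, ← Finset.sum_filter, mul_comm]
  have h2 : ∑ x, K a b c x (Sum.inr j) = c * a := by
    rw [Fintype.sum_sum_type]
    simp [K, mul_comm]
  rw [h1, h2, mul_div_mul_left _ _ hc.ne']

lemma q_nonneg (a b : ℕ) (c : ℝ) (hc : 0 < c) (B : Finset (Fin a ⊕ Fin b)) (w : Fin a ⊕ Fin b) :
    0 ≤ q (K a b c) B w := by
  rcases w with i | j
  · rw [q_inl a b c hc]; positivity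
  · rw [q_inr a b c hc]; positivity

lemma q_le_one (a b : ℕ) (c : ℝ) (hc : 0 < c) (B : Finset (Fin a ⊕ Fin b)) (w : Fin a ⊕ Fin b) :
    q (K a b c) B w ≤ 1 := by
  rcases w with i | j
  · rw [q_inl a b c hc]
    apply div_le_one_of_le₀ _ (by positivity)
    have := Finset.card_le_univ (univ.filter (fun j : Fin b => (Sum.inr j : Fin a ⊕ Fin b) ∈ B))
    rw [Fintype.card_fin] at this
    exact_mod_cast this
  · rw [q_inr a b c hc]
    apply div_le_one_of_le₀ _ (by positivity)
    have := Finset.card_le_univ (univ.filter (fun i : Fin a => (Sum.inl i : Fin a ⊕ Fin b) ∈ B))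
    rw [Fintype.card_fin] at this
    exact_mod_cast this

/-- starting from a vertex of the large side, with probability at least `1 - b/a` nothing happens -/
lemma step_inl (a b : ℕ) (c : ℝ) (hc : 0 < c) (ha : 1 ≤ a) (u : Fin a) :
    1 - (b : ℝ) / a ≤ step (K a b c) {Sum.inl u} ∅ := by
  unfold step
  rw [Finset.prod_empty, one_mul, Finset.sdiff_empty]
  have hq1 : q (K a b c) {Sum.inl u} (Sum.inl u) = 0 := by
    rw [q_inl a b c hc]; simp
  have h1 : ∏ w ∈ ({Sum.inl u} : Finset (Fin a ⊕ Fin b))ᶜ, (1 - q (K a b c) {Sum.inl u} w) =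
      ∏ w, (1 - q (K a b c) {Sum.inl u} w) := by
    rw [← Finset.prod_mul_prod_compl {Sum.inl u} (fun w => 1 - q (K a b c) {Sum.inl u} w)]
    rw [Finset.prod_singleton, hq1]; ring
  rw [h1, Fintype.prod_sum_type]
  have h2 : ∀ i : Fin a, q (K a b c) {Sum.inl u} (Sum.inl i) = 0 := by
    intro i; rw [q_inl a b c hc]; simp
  have h3 : ∀ j : Fin b, q (K a b c) {Sum.inl u} (Sum.inr j) = 1 / a := by
    intro j; rw [q_inr a b c hc]
    congr 1
    have : (univ.filter (fun i : Fin a => (Sum.inl i : Fin a ⊕ Fin b) ∈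
        ({Sum.inl u} : Finset (Fin a ⊕ Fin b)))) = {u} := by
      ext i; simp
    rw [this]; simp
  simp only [h2, h3]
  simp only [sub_zero, Finset.prod_const_one, one_mul, Finset.prod_const, Finset.card_univ,
    Fintype.card_fin]
  have ha' : (1:ℝ) ≤ a := by exact_mod_cast ha
  have h4 : (-2:ℝ) ≤ -(1/a) := by
    have : (1:ℝ)/a ≤ 1 := div_le_one_of_le₀ ha' (by positivity)
    linarith
  have := one_add_mul_le_pow h4 b
  calc 1 - (b:ℝ)/a = 1 + (b:ℝ) * (-(1/a)) := by ring
    _ ≤ (1 + -(1/a)) ^ b := this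
    _ = _ := by ring

lemma geom_partial (r : ℝ) (hr0 : 0 ≤ r) (hr1 : r < 1) (n : ℕ) :
    ∑ s ∈ range n, r ^ s ≤ 1 / (1 - r) := by
  rw [le_div_iff₀ (by linarith)]
  have := geom_sum_mul_neg r n
  rw [this]
  have := pow_nonneg hr0 n
  linarith

lemma sum_bound (f : ℕ → ℝ) (a b r : ℝ) (hr0 : 0 ≤ r) (hr1 : r < 1) (hrb : 1 / (1 - r) = b)
    (hf1 : ∀ t, f t ≤ 1) (hf0 : ∀ t, 0 ≤ f t)
    (hf : ∀ t, f (t+1) ≤ r ^ t * a) (ha : 0 ≤ a) (T : ℕ) (n : ℕ) :
    ∑ t ∈ range n, f t ≤ 1 + T + a * r ^ T * b := by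
  have h1 : ∑ t ∈ range n, f t ≤ ∑ t ∈ range (1 + T + n), f t := by
    apply Finset.sum_le_sum_of_subset_of_nonneg
    · intro x; simp only [Finset.mem_range]; omega
    · intro i _ _; exact hf0 i
  refine h1.trans ?_
  rw [Finset.sum_range_add]
  have h2 : ∑ t ∈ range (1 + T), f t ≤ 1 + T := by
    calc ∑ t ∈ range (1 + T), f t ≤ ∑ t ∈ range (1 + T), (1:ℝ) :=
          Finset.sum_le_sum fun t _ => hf1 t
      _ = 1 + T := by simp
  have h3 : ∑ s ∈ range n, f (1 + T + s) ≤ a * r ^ T * b := by
    calc ∑ s ∈ range n, f (1 + T + s) ≤ ∑ s ∈ range n, (a * r ^ T) * r ^ s := by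
          apply Finset.sum_le_sum
          intro s _
          have := hf (T + s)
          rw [show 1 + T + s = T + s + 1 by ring]
          refine this.trans (le_of_eq ?_)
          rw [pow_add]; ring
      _ = (a * r ^ T) * ∑ s ∈ range n, r ^ s := by rw [Finset.mul_sum]
      _ ≤ (a * r ^ T) * b := by
          apply mul_le_mul_of_nonneg_left _ (by positivity)
          rw [← hrb]
          exact geom_partial r hr0 hr1 n
  linarith


/-- numbers of elements of `B` in the two sides -/
noncomputable def nA (a b : ℕ) (B : Finset (Fin a ⊕ Fin b)) : ℝ := num (fun i : Fin a => Sum.inl i) B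
noncomputable def nB (a b : ℕ) (B : Finset (Fin a ⊕ Fin b)) : ℝ := num (fun j : Fin b => Sum.inr j) B

lemma q_inl' (a b : ℕ) (c : ℝ) (hc : 0 < c) (B : Finset (Fin a ⊕ Fin b)) (i : Fin a) :
    q (K a b c) B (Sum.inl i) = nB a b B / b := by
  rw [q_inl a b c hc]; simp [nB, num]

lemma q_inr' (a b : ℕ) (c : ℝ) (hc : 0 < c) (B : Finset (Fin a ⊕ Fin b)) (j : Fin b) :
    q (K a b c) B (Sum.inr j) = nA a b B / a := by
  rw [q_inr a b c hc]; simp [nA, num]

lemma mean_inl (a b : ℕ) (c : ℝ) (hc : 0 < c) (B : Finset (Fin a ⊕ Fin b)) :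
    mean (K a b c) B (fun i : Fin a => Sum.inl i) = (a - nA a b B) * (nB a b B / b) := by
  unfold mean
  simp only [q_inl' a b c hc]
  have : ∀ i : Fin a, (if (Sum.inl i : Fin a ⊕ Fin b) ∉ B then nB a b B / b else 0) =
      (1 - if (Sum.inl i : Fin a ⊕ Fin b) ∈ B then 1 else 0) * (nB a b B / b) := by
    intro i
    by_cases h : (Sum.inl i : Fin a ⊕ Fin b) ∈ B <;> simp [h]
  rw [Finset.sum_congr rfl (fun i _ => this i), ← Finset.sum_mul, Finset.sum_sub_distrib]
  simp [nA, num]

lemma mean_inr (a b : ℕ) (c : ℝ) (hc : 0 < c) (B : Finset (Fin a ⊕ Fin b)) :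
    mean (K a b c) B (fun j : Fin b => Sum.inr j) = (b - nB a b B) * (nA a b B / a) := by
  unfold mean
  simp only [q_inr' a b c hc]
  have : ∀ j : Fin b, (if (Sum.inr j : Fin a ⊕ Fin b) ∉ B then nA a b B / a else 0) =
      (1 - if (Sum.inr j : Fin a ⊕ Fin b) ∈ B then 1 else 0) * (nA a b B / a) := by
    intro j
    by_cases h : (Sum.inr j : Fin a ⊕ Fin b) ∈ B <;> simp [h]
  rw [Finset.sum_congr rfl (fun i _ => this i), ← Finset.sum_mul, Finset.sum_sub_distrib]
  simp [nB, num]

lemma num_union {V ι : Type*} [Fintype V] [DecidableEq V] [Fintype ι] (e : ι → V) (B S : Finset V)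
    (hS : S ⊆ Bᶜ) : num e (B ∪ S) = num e B + num e S := by
  unfold num
  rw [← Finset.sum_add_distrib]
  apply Finset.sum_congr rfl
  intro i _
  by_cases h : e i ∈ B
  · have : e i ∉ S := fun h' => by have := hS h'; simp [h] at this
    simp [h, this]
  · by_cases h' : e i ∈ S <;> simp [h, h']

lemma num_nonneg {V ι : Type*} [Fintype V] [DecidableEq V] [Fintype ι] (e : ι → V) (S : Finset V) :
    0 ≤ num e S := by
  unfold num
  exact Finset.sum_nonneg fun i _ => by split_ifs <;> norm_num

lemma num_le {V ι : Type*} [Fintype V] [DecidableEq V] [Fintype ι] (e : ι → V) (S : Finset V) :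
    num e S ≤ Fintype.card ι := by
  unfold num
  calc ∑ i, (if e i ∈ S then (1:ℝ) else 0) ≤ ∑ i : ι, (1:ℝ) :=
        Finset.sum_le_sum fun i _ => by split_ifs <;> norm_num
    _ = _ := by simp

/-- sum of the two blue fractions -/
noncomputable def fr (a b : ℕ) (B : Finset (Fin a ⊕ Fin b)) : ℝ := nA a b B / a + nB a b B / b

lemma inv_bound (w : ℝ) (hw : 0 ≤ w) : 1 / (1 + w) ≤ 1 - 51/100 * w + 9/100 * w ^ 2 := by
  rw [div_le_iff₀ (by linarith)]
  nlinarith [mul_nonneg hw (sq_nonneg (7/10 - 3/10 * w))]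

/-- one round multiplies the mean of `1 / fr` by at most `9/10` while few vertices are blue -/
lemma early {ι : Type*} [Fintype ι] [DecidableEq ι] (a b : ℕ) (c : ℝ) (hc : 0 < c)
    (B : Finset (Fin a ⊕ Fin b)) (e : ι → Fin a ⊕ Fin b) (he : Function.Injective e)
    (Nn : ℝ) (hN : 0 < Nn) (hs : 0 < fr a b B)
    (hfr : ∀ S ⊆ Bᶜ, fr a b B + num e S / Nn ≤ fr a b (B ∪ S))
    (h1 : 3/8 * (Nn * fr a b B) ≤ mean (K a b c) B e) (h2 : mean (K a b c) B e ≤ Nn * fr a b B)
    (h3 : 3/4 ≤ mean (K a b c) B e) :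
    ∑ S ∈ (Bᶜ).powerset, step (K a b c) B S * (1 / fr a b (B ∪ S)) ≤ 9/10 * (1 / fr a b B) := by
  set s := fr a b B with hsdef
  set m := mean (K a b c) B e with hm
  have hk : 0 < Nn * s := by positivity
  have hb1 : ∀ S ∈ (Bᶜ).powerset, step (K a b c) B S * (1 / fr a b (B ∪ S)) ≤
      (1/s) * (step (K a b c) B S - 51/100 / (Nn * s) * (step (K a b c) B S * num e S) +
        9/100 / (Nn * s)^2 * (step (K a b c) B S * num e S ^ 2)) := by
    intro S hS
    have hS' := hfr S (Finset.mem_powerset.1 hS)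
    have hX : 0 ≤ num e S := num_nonneg e S
    have hst := step_nonneg _ (q_nonneg a b c hc) (q_le_one a b c hc) B S
    have h4 : 1 / fr a b (B ∪ S) ≤ (1/s) * (1 / (1 + num e S / (Nn * s))) := by
      rw [one_div_mul_one_div]
      apply one_div_le_one_div_of_le (by positivity)
      have : s * (1 + num e S / (Nn * s)) = s + num e S / Nn := by
        field_simp
      rw [this]; exact hS'
    have h5 := inv_bound (num e S / (Nn * s)) (by positivity)
    calc step (K a b c) B S * (1 / fr a b (B ∪ S))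
        ≤ step (K a b c) B S * ((1/s) * (1 - 51/100 * (num e S / (Nn * s)) +
            9/100 * (num e S / (Nn * s)) ^ 2)) := by
          apply mul_le_mul_of_nonneg_left _ hst
          exact h4.trans (mul_le_mul_of_nonneg_left h5 (by positivity))
      _ = _ := by
          rw [div_pow]; ring
  refine (Finset.sum_le_sum hb1).trans ?_
  rw [← Finset.mul_sum, Finset.sum_add_distrib, Finset.sum_sub_distrib, ← Finset.mul_sum,
    ← Finset.mul_sum, sum_step, first_moment]
  have h6 := second_moment (K a b c) B e he (q_nonneg a b c hc)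
  rw [mul_comm (9/10 : ℝ)]
  apply mul_le_mul_of_nonneg_left _ (by positivity)
  rw [← hm] at h6 ⊢
  set k := Nn * s with hkdef
  have h7 : 9/100 / k^2 * ∑ S ∈ (Bᶜ).powerset, step (K a b c) B S * num e S ^ 2 ≤
      9/100 / k^2 * (m^2 + m) := mul_le_mul_of_nonneg_left h6 (by positivity)
  have hmu : 9/100 / k^2 * (m^2 + m) ≤ 21/100 * (m / k) := by
    have hm0 : 0 < m := by linarith
    have : m^2 + m ≤ 7/3 * m^2 := by nlinarith
    calc 9/100 / k^2 * (m^2 + m) ≤ 9/100 / k^2 * (7/3 * m^2) :=
          mul_le_mul_of_nonneg_left this (by positivity)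
      _ = 21/100 * (m/k) * (m/k) := by field_simp; ring
      _ ≤ 21/100 * (m/k) * 1 := by
          apply mul_le_mul_of_nonneg_left _ (by positivity)
          rw [div_le_one hk]; exact h2
      _ = _ := by ring
  have hmu2 : 3/8 ≤ m / k := by rw [le_div_iff₀ hk]; exact h1
  have h8 : 51/100 / k * m = 51/100 * (m/k) := by ring
  rw [h8]
  linarith

lemma fr_union (a b : ℕ) (B S : Finset (Fin a ⊕ Fin b)) (hS : S ⊆ Bᶜ) :
    fr a b (B ∪ S) = fr a b B + num (fun i : Fin a => (Sum.inl i : Fin a ⊕ Fin b)) S / a +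
      num (fun j : Fin b => (Sum.inr j : Fin a ⊕ Fin b)) S / b := by
  unfold fr nA nB
  rw [num_union _ B S hS, num_union _ B S hS]
  ring

lemma alg1 (N x y : ℝ) (hN : 0 ≤ N) (_hx : 0 ≤ x) (hy : 0 ≤ y) (hx4 : x ≤ 1/4) (hxy : x ≤ y) :
    3/8 * (N * (x + y)) ≤ N * ((1 - x) * y) := by
  have h1 : 0 ≤ (1/4 - x) * y := mul_nonneg (by linarith) hy
  have h2 : 3/8 * (x + y) ≤ (1 - x) * y := by nlinarith [h1]
  calc 3/8 * (N * (x + y)) = N * (3/8 * (x + y)) := by ring
    _ ≤ _ := mul_le_mul_of_nonneg_left h2 hN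

lemma alg2 (N x y : ℝ) (hN : 0 ≤ N) (hx : 0 ≤ x) (hy : 0 ≤ y) :
    N * ((1 - x) * y) ≤ N * (x + y) := by
  apply mul_le_mul_of_nonneg_left _ hN
  nlinarith [mul_nonneg hx hy]

lemma alg3 (N x y : ℝ) (hx4 : x ≤ 1/4) (h : 1 ≤ N * y) : 3/4 ≤ N * ((1 - x) * y) := by
  have : 3/4 * 1 ≤ (1 - x) * (N * y) := mul_le_mul (by linarith) h (by norm_num) (by linarith)
  calc (3:ℝ)/4 = 3/4 * 1 := by ring
    _ ≤ (1 - x) * (N * y) := this
    _ = _ := by ring

lemma drift (a b : ℕ) (hb : 1 ≤ b) (hab : b ≤ a) (c : ℝ) (hc : 0 < c)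
    (B : Finset (Fin a ⊕ Fin b)) (hB : 1 ≤ nB a b B) :
    ∑ S ∈ (Bᶜ).powerset, step (K a b c) B S * (1 / fr a b (B ∪ S) - 1/2) ≤
      9/10 * (1 / fr a b B - 1/2) := by
  have hb' : (1:ℝ) ≤ b := by exact_mod_cast hb
  have hab' : (b:ℝ) ≤ a := by exact_mod_cast hab
  have ha' : (1:ℝ) ≤ a := by linarith
  have ha0 : (0:ℝ) < a := by linarith
  have hb0 : (0:ℝ) < b := by linarith
  have hA0 : 0 ≤ nA a b B := num_nonneg _ _
  have hA1 : nA a b B ≤ a := by
    have := num_le (fun i : Fin a => (Sum.inl i : Fin a ⊕ Fin b)) B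
    simpa [nA] using this
  have hB1 : nB a b B ≤ b := by
    have := num_le (fun j : Fin b => (Sum.inr j : Fin a ⊕ Fin b)) B
    simpa [nB] using this
  set ξ : ℝ := nA a b B / a with hξ
  set η : ℝ := nB a b B / b with hη
  have hξ0 : 0 ≤ ξ := by positivity
  have hη0 : 0 < η := by positivity
  have hξ1 : ξ ≤ 1 := by rw [hξ, div_le_one ha0]; exact hA1
  have hη1 : η ≤ 1 := by rw [hη, div_le_one hb0]; exact hB1
  have hs : fr a b B = ξ + η := rfl
  have hspos : 0 < fr a b B := by rw [hs]; linarith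
  have hmA : mean (K a b c) B (fun i : Fin a => Sum.inl i) = a * ((1 - ξ) * η) := by
    rw [mean_inl a b c hc, hξ, hη]; field_simp
  have hmB : mean (K a b c) B (fun j : Fin b => Sum.inr j) = b * ((1 - η) * ξ) := by
    rw [mean_inr a b c hc, hξ, hη]; field_simp
  rcases le_or_gt (1/4) (ξ + η) with hcase | hcase
  · -- late phase
    have hterm : ∀ S ∈ (Bᶜ).powerset, step (K a b c) B S * (1 / fr a b (B ∪ S) - 1/2) ≤
        (1 / (2 * (ξ + η))) * ((2 - (ξ + η)) * step (K a b c) B S -
          (1 / a) * (step (K a b c) B S * num (fun i : Fin a => (Sum.inl i : Fin a ⊕ Fin b)) S) -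
          (1 / b) * (step (K a b c) B S *
            num (fun j : Fin b => (Sum.inr j : Fin a ⊕ Fin b)) S)) := by
      intro S hS
      have hst := step_nonneg _ (q_nonneg a b c hc) (q_le_one a b c hc) B S
      have hS' := Finset.mem_powerset.1 hS
      have hu := fr_union a b B S hS'
      have hX := num_nonneg (fun i : Fin a => (Sum.inl i : Fin a ⊕ Fin b)) S
      have hY := num_nonneg (fun j : Fin b => (Sum.inr j : Fin a ⊕ Fin b)) S
      have hXa := div_nonneg hX ha0.le
      have hYb := div_nonneg hY hb0.le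
      have hge : fr a b B ≤ fr a b (B ∪ S) := by rw [hu]; linarith
      have hle2 : fr a b (B ∪ S) ≤ 2 := by
        have h1 : nA a b (B ∪ S) ≤ a := by
          have := num_le (fun i : Fin a => (Sum.inl i : Fin a ⊕ Fin b)) (B ∪ S)
          simpa [nA] using this
        have h2 : nB a b (B ∪ S) ≤ b := by
          have := num_le (fun j : Fin b => (Sum.inr j : Fin a ⊕ Fin b)) (B ∪ S)
          simpa [nB] using this
        have h3 : nA a b (B ∪ S) / a ≤ 1 := by rw [div_le_one ha0]; exact h1
        have h4 : nB a b (B ∪ S) / b ≤ 1 := by rw [div_le_one hb0]; exact h2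
        unfold fr; linarith
      have h5 : 1 / fr a b (B ∪ S) - 1/2 ≤ (1 / (2 * (ξ + η))) * (2 - fr a b (B ∪ S)) := by
        have hp : 0 < fr a b (B ∪ S) := lt_of_lt_of_le hspos hge
        have e1 : 1 / fr a b (B ∪ S) - 1/2 =
            (1 / (2 * fr a b (B ∪ S))) * (2 - fr a b (B ∪ S)) := by
          field_simp
        rw [e1]
        apply mul_le_mul_of_nonneg_right _ (by linarith)
        apply one_div_le_one_div_of_le (by linarith)
        rw [hs] at hge
        linarith
      calc step (K a b c) B S * (1 / fr a b (B ∪ S) - 1/2)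
          ≤ step (K a b c) B S * ((1 / (2 * (ξ + η))) * (2 - fr a b (B ∪ S))) :=
            mul_le_mul_of_nonneg_left h5 hst
        _ = _ := by rw [hu, hs]; ring
    refine (Finset.sum_le_sum hterm).trans ?_
    rw [← Finset.mul_sum, Finset.sum_sub_distrib, Finset.sum_sub_distrib, ← Finset.mul_sum,
      ← Finset.mul_sum, ← Finset.mul_sum, sum_step, first_moment, first_moment, hmA, hmB, hs]
    have e2 : (1:ℝ)/a * (a * ((1 - ξ) * η)) = (1-ξ)*η := by field_simp
    have e3 : (1:ℝ)/b * (b * ((1 - η) * ξ)) = (1-η)*ξ := by field_simp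
    rw [e2, e3]
    have e4 : 9/10 * (1 / (ξ + η) - 1/2) = (1 / (2 * (ξ + η))) * (9/10 * (2 - (ξ + η))) := by
      have : ξ + η ≠ 0 := by linarith
      field_simp
    rw [e4]
    apply mul_le_mul_of_nonneg_left _ (by positivity)
    nlinarith [sq_nonneg (ξ - η), mul_nonneg (sub_nonneg.2 hξ1) (sub_nonneg.2 hη1),
      mul_nonneg (show 0 ≤ (2 - (ξ+η)) by linarith) (show 0 ≤ (ξ + η - 1/4) by linarith)]
  · -- early phase
    have hearly : ∑ S ∈ (Bᶜ).powerset, step (K a b c) B S * (1 / fr a b (B ∪ S)) ≤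
        9/10 * (1 / fr a b B) := by
      have hηb : 1 ≤ b * η := by rw [hη]; field_simp; exact hB
      rcases le_or_gt ξ η with hlt | hlt
      · apply early a b c hc B (fun i : Fin a => Sum.inl i) Sum.inl_injective a ha0 hspos
        · intro S hS
          rw [fr_union a b B S hS]
          have := div_nonneg (num_nonneg (fun j : Fin b => (Sum.inr j : Fin a ⊕ Fin b)) S) hb0.le
          linarith
        · rw [hmA, hs]
          exact alg1 a ξ η ha0.le hξ0 hη0.le (by linarith) hlt
        · rw [hmA, hs]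
          exact alg2 a ξ η ha0.le hξ0 hη0.le
        · rw [hmA]
          apply alg3 a ξ η (by linarith)
          exact hηb.trans (mul_le_mul_of_nonneg_right hab' hη0.le)
      · apply early a b c hc B (fun j : Fin b => Sum.inr j) Sum.inr_injective b hb0 hspos
        · intro S hS
          rw [fr_union a b B S hS]
          have := div_nonneg (num_nonneg (fun i : Fin a => (Sum.inl i : Fin a ⊕ Fin b)) S) ha0.le
          linarith
        · rw [hmB, hs, add_comm ξ η]
          exact alg1 b η ξ hb0.le hη0.le hξ0 (by linarith) hlt.le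
        · rw [hmB, hs, add_comm ξ η]
          exact alg2 b η ξ hb0.le hη0.le hξ0
        · rw [hmB]
          apply alg3 b η ξ (by linarith)
          exact hηb.trans (mul_le_mul_of_nonneg_left hlt.le hb0.le)
    have e5 : ∑ S ∈ (Bᶜ).powerset, step (K a b c) B S * (1 / fr a b (B ∪ S) - 1/2) =
        ∑ S ∈ (Bᶜ).powerset, step (K a b c) B S * (1 / fr a b (B ∪ S)) - 1/2 := by
      simp only [mul_sub]
      rw [Finset.sum_sub_distrib, ← Finset.sum_mul, sum_step]
      ring
    rw [e5]
    linarith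

lemma notDone_le (a b : ℕ) (hb : 1 ≤ b) (hab : b ≤ a) (c : ℝ) (hc : 0 < c) (v : Fin b) (t : ℕ)
    (B : Finset (Fin a ⊕ Fin b)) (hv : Sum.inr v ∈ B) :
    notDone (K a b c) t B ≤ 4 * a * (9/10 : ℝ) ^ t * (1 / fr a b B - 1/2) := by
  have hb' : (1:ℝ) ≤ b := by exact_mod_cast hb
  have hab' : (b:ℝ) ≤ a := by exact_mod_cast hab
  have ha' : (1:ℝ) ≤ a := by linarith
  have ha0 : (0:ℝ) < a := by linarith
  have hb0 : (0:ℝ) < b := by linarith
  induction t generalizing B with
  | zero =>
    have hnB : 1 ≤ nB a b B := by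
      unfold nB num
      have := Finset.single_le_sum (f := fun j : Fin b =>
        if (Sum.inr j : Fin a ⊕ Fin b) ∈ B then (1:ℝ) else 0) (s := univ)
        (fun i _ => by split_ifs <;> norm_num) (Finset.mem_univ v)
      rw [if_pos hv] at this
      exact this
    have hA0 : 0 ≤ nA a b B := num_nonneg _ _
    have hA1 : nA a b B ≤ a := by
      have := num_le (fun i : Fin a => (Sum.inl i : Fin a ⊕ Fin b)) B
      simpa [nA] using this
    have hB1 : nB a b B ≤ b := by
      have := num_le (fun j : Fin b => (Sum.inr j : Fin a ⊕ Fin b)) B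
      simpa [nB] using this
    have hξ1 : nA a b B / a ≤ 1 := by rw [div_le_one ha0]; exact hA1
    have hη1 : nB a b B / b ≤ 1 := by rw [div_le_one hb0]; exact hB1
    have hξ0 : 0 ≤ nA a b B / a := by positivity
    have hη0 : 0 < nB a b B / b := by positivity
    have hspos : 0 < fr a b B := by unfold fr; linarith
    have hs2 : fr a b B ≤ 2 := by unfold fr; linarith
    by_cases hBu : B = univ
    · have : notDone (K a b c) 0 B = 0 := by simp [notDone, hBu]
      rw [this]
      have h1 : 1/2 ≤ 1 / fr a b B := one_div_le_one_div_of_le hspos hs2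
      have : 0 ≤ 1 / fr a b B - 1/2 := by linarith
      positivity
    · have : notDone (K a b c) 0 B = 1 := by simp [notDone, hBu]
      rw [this, pow_zero, mul_one]
      obtain ⟨w, hw⟩ : ∃ w, w ∉ B := by
        by_contra hcon
        push Not at hcon
        exact hBu (Finset.eq_univ_iff_forall.2 hcon)
      have hfr : fr a b B ≤ 2 - 1 / a := by
        rcases w with i | j
        · have h1 : nA a b B ≤ a - 1 := by
            have h2 : nA a b B + 1 ≤ a := by
              unfold nA num
              have h3 : (1:ℝ) = ∑ k : Fin a, if k = i then 1 else 0 := by simp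
              nth_rewrite 2 [h3]
              rw [← Finset.sum_add_distrib]
              calc _ ≤ ∑ k : Fin a, (1:ℝ) := by
                    apply Finset.sum_le_sum
                    intro k _
                    by_cases hk : k = i
                    · subst hk; simp [hw]
                    · rw [if_neg hk]; split_ifs <;> norm_num
                _ = a := by simp
            linarith
          have h4 : nA a b B / a ≤ 1 - 1/a := by
            rw [div_le_iff₀ ha0]
            have : (1 - 1/(a:ℝ)) * a = a - 1 := by field_simp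
            rw [this]; exact h1
          unfold fr; linarith
        · have h1 : nB a b B ≤ b - 1 := by
            have h2 : nB a b B + 1 ≤ b := by
              unfold nB num
              have h3 : (1:ℝ) = ∑ k : Fin b, if k = j then 1 else 0 := by simp
              nth_rewrite 2 [h3]
              rw [← Finset.sum_add_distrib]
              calc _ ≤ ∑ k : Fin b, (1:ℝ) := by
                    apply Finset.sum_le_sum
                    intro k _
                    by_cases hk : k = j
                    · subst hk; simp [hw]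
                    · rw [if_neg hk]; split_ifs <;> norm_num
                _ = b := by simp
            linarith
          have h4 : nB a b B / b ≤ 1 - 1/b := by
            rw [div_le_iff₀ hb0]
            have : (1 - 1/(b:ℝ)) * b = b - 1 := by field_simp
            rw [this]; exact h1
          have h5 : (1:ℝ)/a ≤ 1/b := one_div_le_one_div_of_le hb0 hab'
          unfold fr; linarith
      have e1 : 1 / fr a b B - 1/2 = (2 - fr a b B) / (2 * fr a b B) := by
        field_simp
      rw [e1]
      have h6 : 1 / (4 * (a:ℝ)) ≤ (2 - fr a b B) / (2 * fr a b B) := by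
        rw [div_le_div_iff₀ (by positivity) (by positivity)]
        have h7 : (1:ℝ) ≤ (2 - fr a b B) * a := by
          have : (1:ℝ)/a ≤ 2 - fr a b B := by linarith
          rwa [div_le_iff₀ ha0] at this
        nlinarith
      calc (1:ℝ) = 4 * a * (1 / (4 * (a:ℝ))) := by field_simp
        _ ≤ _ := mul_le_mul_of_nonneg_left h6 (by positivity)
  | succ t ih =>
    have hnB : 1 ≤ nB a b B := by
      unfold nB num
      have := Finset.single_le_sum (f := fun j : Fin b =>
        if (Sum.inr j : Fin a ⊕ Fin b) ∈ B then (1:ℝ) else 0) (s := univ)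
        (fun i _ => by split_ifs <;> norm_num) (Finset.mem_univ v)
      rw [if_pos hv] at this
      exact this
    calc notDone (K a b c) (t+1) B =
          ∑ S ∈ (Bᶜ).powerset, step (K a b c) B S * notDone (K a b c) t (B ∪ S) := rfl
      _ ≤ ∑ S ∈ (Bᶜ).powerset, step (K a b c) B S *
            (4 * a * (9/10 : ℝ) ^ t * (1 / fr a b (B ∪ S) - 1/2)) := by
          apply Finset.sum_le_sum
          intro S _
          exact mul_le_mul_of_nonneg_left (ih (B ∪ S) (by simp [hv]))
            (step_nonneg _ (q_nonneg a b c hc) (q_le_one a b c hc) B S)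
      _ = 4 * a * (9/10 : ℝ) ^ t *
            ∑ S ∈ (Bᶜ).powerset, step (K a b c) B S * (1 / fr a b (B ∪ S) - 1/2) := by
          rw [Finset.mul_sum]
          apply Finset.sum_congr rfl
          intro S _
          ring
      _ ≤ 4 * a * (9/10 : ℝ) ^ t * (9/10 * (1 / fr a b B - 1/2)) :=
          mul_le_mul_of_nonneg_left (drift a b hb hab c hc B hnB) (by positivity)
      _ = _ := by ring

/-- Upper bound when the process starts in the small side. -/
lemma ept_small (a b : ℕ) (hb : 1 ≤ b) (hab : b ≤ a) (c : ℝ) (hc : 0 < c) (v : Fin b) :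
    ept (K a b c) {Sum.inr v} ≤ ENNReal.ofReal (20 * Real.log a + 26) := by
  have hb' : (1:ℝ) ≤ b := by exact_mod_cast hb
  have hab' : (b:ℝ) ≤ a := by exact_mod_cast hab
  have ha' : (1:ℝ) ≤ a := by linarith
  set M : ℝ := 4 * a * b with hM
  have hM1 : 1 ≤ M := by nlinarith
  have hlogM : 0 ≤ Real.log M := Real.log_nonneg hM1
  have hlogM2 : Real.log M ≤ 2 * Real.log a + 1.3864 := by
    rw [hM, mul_assoc, Real.log_mul (by norm_num) (by positivity),
      Real.log_mul (by positivity) (by positivity)]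
    have h1 : Real.log b ≤ Real.log a := Real.log_le_log (by positivity) hab'
    have h2 : Real.log 4 = 2 * Real.log 2 := by
      rw [show (4:ℝ) = 2 ^ 2 by norm_num, Real.log_pow]; norm_num
    have h3 := Real.log_two_lt_d9
    rw [h2]; linarith
  set T : ℕ := ⌈10 * Real.log M⌉₊ with hT
  have hT1 : 10 * Real.log M ≤ T := Nat.le_ceil _
  have hT2 : (T:ℝ) ≤ 10 * Real.log M + 1 := (Nat.ceil_lt_add_one (by positivity)).le
  have hrT : M * (9/10 : ℝ) ^ T ≤ 1 := by
    have h1 : (9/10 : ℝ) ≤ Real.exp (-(1/10)) := by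
      have := Real.add_one_le_exp (-(1/10) : ℝ)
      linarith
    have h2 : (9/10 : ℝ) ^ T ≤ Real.exp (-(1/10)) ^ T := pow_le_pow_left₀ (by norm_num) h1 T
    have h3 : Real.exp (-(1/10)) ^ T = Real.exp (-((T:ℝ)/10)) := by
      rw [← Real.exp_nat_mul]
      congr 1
      ring
    have h4 : Real.exp (-((T:ℝ)/10)) ≤ Real.exp (-Real.log M) := by
      apply Real.exp_le_exp.2
      linarith
    have h5 : Real.exp (-Real.log M) = 1 / M := by
      rw [Real.exp_neg, Real.exp_log (by positivity)]; simp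
    calc M * (9/10 : ℝ) ^ T ≤ M * (1 / M) := by
          apply mul_le_mul_of_nonneg_left _ (by positivity)
          rw [← h5]; exact (h2.trans (le_of_eq h3)).trans h4
      _ = 1 := by field_simp
  unfold ept
  apply ENNReal.tsum_le_of_sum_range_le
  intro n
  rw [← ENNReal.ofReal_sum_of_nonneg
    (fun t _ => notDone_nonneg _ (q_nonneg a b c hc) (q_le_one a b c hc) t _)]
  apply ENNReal.ofReal_le_ofReal
  have hfr : fr a b {Sum.inr v} = 1 / b := by
    unfold fr nA nB num
    simp
  have hbd : ∀ t, notDone (K a b c) t {Sum.inr v} ≤ M * (9/10 : ℝ) ^ t := by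
    intro t
    have := notDone_le a b hb hab c hc v t {Sum.inr v} (by simp)
    rw [hfr, one_div_one_div] at this
    refine this.trans ?_
    have h9 : (0:ℝ) ≤ (9/10 : ℝ) ^ t := by positivity
    have : 4 * (a:ℝ) * (9/10 : ℝ) ^ t * (b - 1/2) ≤ 4 * a * (9/10 : ℝ) ^ t * b :=
      mul_le_mul_of_nonneg_left (by linarith) (by positivity)
    refine this.trans (le_of_eq ?_)
    rw [hM]; ring
  have := sum_bound (fun t => notDone (K a b c) t {Sum.inr v}) M 10 (9/10) (by norm_num)
    (by norm_num) (by norm_num)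
    (fun t => notDone_le_one _ (q_nonneg a b c hc) (q_le_one a b c hc) t _)
    (fun t => notDone_nonneg _ (q_nonneg a b c hc) (q_le_one a b c hc) t _)
    (fun t => by
      refine (hbd (t+1)).trans ?_
      rw [pow_succ, mul_comm]
      apply mul_le_mul_of_nonneg_right _ (by positivity)
      have : (0:ℝ) ≤ (9/10 : ℝ) ^ t := by positivity
      linarith) (by positivity) T n
  refine this.trans ?_
  linarith

/-- Lower bound when the process starts in the large side. -/
lemma ept_large (a b : ℕ) (hb : 1 ≤ b) (hab : b < a) (c : ℝ) (hc : 0 < c) (u : Fin a) :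
    ENNReal.ofReal ((a:ℝ) / b) ≤ ept (K a b c) {Sum.inl u} := by
  have hb' : (0:ℝ) < b := by exact_mod_cast hb
  have hab' : (b:ℝ) < a := by exact_mod_cast hab
  have ha' : (0:ℝ) < a := by linarith
  have hr0 : (0:ℝ) ≤ 1 - (b:ℝ)/a := by
    have : (b:ℝ)/a ≤ 1 := div_le_one_of_le₀ hab'.le ha'.le
    linarith
  have hr1 : 1 - (b:ℝ)/a < 1 := by
    have : (0:ℝ) < (b:ℝ)/a := by positivity
    linarith
  have hs := hasSum_geometric_of_lt_one hr0 hr1
  have h1 : (1 - (1 - (b:ℝ)/a))⁻¹ = (a:ℝ)/b := by
    rw [sub_sub_cancel, inv_div]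
  rw [h1] at hs
  rw [← hs.tsum_eq, ENNReal.ofReal_tsum_of_nonneg (fun n => pow_nonneg hr0 n) hs.summable]
  unfold ept
  apply ENNReal.tsum_le_tsum
  intro t
  apply ENNReal.ofReal_le_ofReal
  apply notDone_ge_pow _ (q_nonneg a b c hc) (q_le_one a b c hc) _ _ _
    (step_inl a b c hc (by omega) u) hr0
  intro h
  have : (Sum.inr (⟨0, by omega⟩ : Fin b) : Fin a ⊕ Fin b) ∈
      ({Sum.inl u} : Finset (Fin a ⊕ Fin b)) := by rw [h]; simp
  simp at this

/-- In `K_{a,b}` with `b ≤ a`, the expected propagation time from a single vertex of the side of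
size `b` is at most `20 log a + 26`. If moreover `b (20 log a + 26) < a`, randomized zero forcing
is on average strictly faster from a single vertex of the small side than from a single vertex of
the large side; for each `b` this covers all but finitely many `a`. -/
theorem result :
    (∀ (a b : ℕ), 1 ≤ b → b ≤ a → ∀ (c : ℝ), 0 < c → ∀ (v : Fin b),
        ept (K a b c) {Sum.inr v} ≤ ENNReal.ofReal (20 * Real.log a + 26)) ∧
    (∀ (a b : ℕ), 1 ≤ b → (b:ℝ) * (20 * Real.log a + 26) < a →
      ∀ (c : ℝ), 0 < c → ∀ (u : Fin a) (v : Fin b),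
        ept (K a b c) {Sum.inr v} < ept (K a b c) {Sum.inl u}) ∧
    (∀ b : ℕ, 1 ≤ b → ∃ a₀ : ℕ, ∀ a : ℕ, a₀ ≤ a →
      ∀ (c : ℝ), 0 < c → ∀ (u : Fin a) (v : Fin b),
        ept (K a b c) {Sum.inr v} < ept (K a b c) {Sum.inl u}) := by
  have main : ∀ (a b : ℕ), 1 ≤ b → (b:ℝ) * (20 * Real.log a + 26) < a →
      ∀ (c : ℝ), 0 < c → ∀ (u : Fin a) (v : Fin b),
        ept (K a b c) {Sum.inr v} < ept (K a b c) {Sum.inl u} := by
    intro a b hb h c hc u v
    have hb' : (1:ℝ) ≤ b := by exact_mod_cast hb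
    have ha : 1 ≤ a := by have := u.isLt; omega
    have ha' : (1:ℝ) ≤ a := by exact_mod_cast ha
    have hlog : 0 ≤ Real.log a := Real.log_nonneg ha'
    have hab : (b:ℝ) < a := by
      refine lt_of_le_of_lt ?_ h
      nlinarith
    have hab' : b < a := by exact_mod_cast hab
    refine lt_of_le_of_lt (ept_small a b hb hab'.le c hc v) (lt_of_lt_of_le ?_
      (ept_large a b hb hab' c hc u))
    rw [ENNReal.ofReal_lt_ofReal_iff (by positivity)]
    rw [lt_div_iff₀ (by positivity)]
    linarith
  refine ⟨fun a b hb hab c hc v => ept_small a b hb hab c hc v, main, ?_⟩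
  intro b hb
  have hb' : (0:ℝ) < b := by exact_mod_cast hb
  have hev : ∀ᶠ a : ℕ in Filter.atTop, (b:ℝ) * (20 * Real.log a + 26) < a := by
    have h1 := (Real.isLittleO_log_id_atTop.bound (show (0:ℝ) < 1 / (40 * b) by positivity))
    have h2 := tendsto_natCast_atTop_atTop.eventually h1
    have h3 := tendsto_natCast_atTop_atTop.eventually
      (Filter.eventually_gt_atTop (52 * (b:ℝ)))
    have h4 := Filter.eventually_ge_atTop (1:ℕ)
    filter_upwards [h2, h3, h4] with a h2 h3 h4
    have ha' : (1:ℝ) ≤ a := by exact_mod_cast h4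
    simp only [id, Real.norm_eq_abs] at h2
    rw [abs_of_nonneg (Real.log_nonneg ha'), abs_of_nonneg (by linarith)] at h2
    have h5 : (b:ℝ) * (20 * Real.log a) ≤ a / 2 := by
      calc (b:ℝ) * (20 * Real.log a) ≤ b * (20 * (1 / (40 * b) * a)) := by
            apply mul_le_mul_of_nonneg_left _ hb'.le
            linarith
        _ = a / 2 := by field_simp; ring
    linarith
  obtain ⟨a₀, ha₀⟩ := Filter.eventually_atTop.1 hev
  exact ⟨a₀, fun a ha => main a b hb (ha₀ a ha)⟩

end Pool.Agent.Results.MP_79e3be_pr.NearLinear
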